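import Mathlib
import Pool.Agent.H.MP_4ba7b3_gt.A

set_option autoImplicit false

open Set Filter Topology
open Pool.Agent.H.MP_19adc1_gt Pool.Agent.H.MP_4ba7b3_gt

namespace Pool.Agent.H.MP_2b4c46_gt

def P (A : Set ℕ) : Prop :=
  ∀ L, ∃ W N, ∀ t, N ≤ t → ∃ u, t ≤ u + W ∧ u + L ≤ t ∧ ∀ a ∈ A, a ≤ u ∨ u + L < a

lemma P_union {A B : Set ℕ} (hA : P A) (hB : P B) : P (A ∪ B) := fun L => by
  obtain ⟨W, N, h⟩ := hA L
  obtain ⟨W', N', h'⟩ := hB W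
  refine ⟨W', N' + N + W', fun t ht => ?_⟩
  obtain ⟨v, v1, v2, v3⟩ := h' t (by omega)
  obtain ⟨u, u1, u2, u3⟩ := h (v + W) (by omega)
  refine ⟨u, by omega, by omega, ?_⟩
  rintro a (ha | ha)
  · exact u3 a ha
  · have := v3 a ha
    omega

lemma P_range {a : ℕ → ℕ} (h1 : Monotone a) (h2 : ∀ L, ∃ N, ∀ n, N ≤ n → a n + L ≤ a (n + 1)) :
    P (range a) := fun L => by
  obtain ⟨N, hN⟩ := h2 (2 * L)
  refine ⟨2 * L, a N + 2 * L, fun t ht => ?_⟩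
  by_contra h
  push Not at h
  obtain ⟨_, ⟨i, rfl⟩, i1, i2⟩ := h (t - 2 * L) (by omega) (by omega)
  obtain ⟨_, ⟨j, rfl⟩, j1, j2⟩ := h (t - L) (by omega) (by omega)
  have h3 : N < i := h1.reflect_lt (by omega)
  have h4 : i < j := h1.reflect_lt (by omega)
  have := hN i h3.le
  have := h1 (Nat.succ_le_of_lt h4)
  simp only [Nat.succ_eq_add_one] at this
  omega

noncomputable def d (a : ℕ) : UnitAddCircle := ((1 / 2 ^ a : ℝ) : UnitAddCircle)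

def U (A : Set ℕ) (μ : ℝ) : Set ℤ := {y | ∀ a ∈ A, ‖y • d a‖ ≤ μ}

lemma kill {a s : ℕ} (h : a ≤ s) {y : ℤ} (hy : 2 ^ s ∣ y) : y • d a = 0 := by
  obtain ⟨z, rfl⟩ := (pow_dvd_pow 2 h).trans hy
  rw [d, smul_coe]
  refine (AddCircle.coe_eq_zero_iff _).2 ⟨z, ?_⟩
  simp only [zsmul_eq_mul]
  push_cast
  field_simp

lemma small (y : ℤ) {a s : ℕ} (h : s ≤ a) : ‖y • d a‖ ≤ |(y : ℝ)| * (1 / 2) ^ s := by
  rw [d, smul_coe]
  refine (nle _).trans ?_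
  rw [abs_mul, ← one_div_pow, abs_of_pos (show (0 : ℝ) < (1 / 2) ^ a by positivity)]
  exact mul_le_mul_of_nonneg_left (pow_le_pow_of_le_one (by norm_num) (by norm_num) h)
    (abs_nonneg _)

lemma free {A : Set ℕ} {μ : ℝ} {u L : ℕ} (h : ∀ a ∈ A, a ≤ u ∨ u + L < a)
    (hL : (1 / 2) ^ L ≤ μ) : (2 ^ u : ℤ) ∈ U A μ := fun a ha => by
  rcases h a ha with h | h
  · rw [kill h dvd_rfl, norm_zero]
    exact le_trans (by positivity) hL
  · refine (small _ h.le).trans (le_of_eq_of_le ?_ hL)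
    push_cast
    rw [abs_of_pos (by positivity), pow_add, ← mul_assoc, ← mul_pow]
    norm_num

lemma key {A : Set ℕ} (hA : P A) {μ : ℝ} (hμ : 0 < μ) {χ : UnitAddCircle}
    (h : ∀ y ∈ U A μ, ‖y • χ‖ ≤ 1 / 4) : ∃ t : ℕ, (2 ^ t : ℤ) • χ = 0 := by
  have h1 : ∀ c > 0, ∃ s : ℕ, ∀ y ∈ U A (μ / 2), 2 ^ s ∣ y → ‖y • χ‖ ≤ c := fun c hc => by
    by_contra h1
    push Not at h1
    have h2 : ∀ k : ℕ, ∃ x ∈ U A μ, k * c ≤ ‖x • χ‖ := fun k => by
      induction k with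
      | zero => exact ⟨0, fun a _ => by simpa using hμ.le, by simp⟩
      | succ k ih =>
        obtain ⟨x, x1, x2⟩ := ih
        obtain ⟨s, hs⟩ := exists_pow_lt_of_lt_one (show 0 < μ / 2 / (|(x : ℝ)| + 1) by positivity)
          (show (1 / 2 : ℝ) < 1 by norm_num)
        rw [lt_div_iff₀ (by positivity)] at hs
        have h3 : ∀ y ∈ U A (μ / 2), 2 ^ s ∣ y → x + y ∈ U A μ := fun y y1 y2 a ha => by
          rw [add_smul]
          rcases le_total a s with h4 | h4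
          · rw [kill h4 y2, add_zero]
            exact x1 a ha
          · have : (0 : ℝ) < (1 / 2) ^ s := by positivity
            nlinarith [norm_add_le (x • d a) (y • d a), small x h4, y1 a ha]
        obtain ⟨y, y1, y2, y3⟩ := h1 s
        rcases sgn (h x x1) (h y fun a ha => (y1 a ha).trans (half_le_self hμ.le)) with h4 | h4
        · exact ⟨x + y, h3 y y1 y2, by rw [add_smul, h4]; push_cast; linarith⟩
        · exact ⟨x + -y, h3 _ (fun a ha => by simpa using y1 a ha) y2.neg_right,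
            by rw [add_smul, neg_smul, h4]; push_cast; linarith⟩
    obtain ⟨k, hk⟩ := exists_nat_gt (1 / 4 / c)
    obtain ⟨x, x1, x2⟩ := h2 k
    rw [div_lt_iff₀ hc] at hk
    linarith [h x x1]
  obtain ⟨L, hL⟩ := exists_pow_lt_of_lt_one (half_pos hμ) (show (1 / 2 : ℝ) < 1 by norm_num)
  obtain ⟨W, N, hW⟩ := hA L
  obtain ⟨s, hs⟩ := h1 (1 / 4 / 2 ^ W) (by positivity)
  have h2 : ∀ t, N + s + W ≤ t → ‖(2 ^ t : ℤ) • χ‖ ≤ 1 / 4 := fun t ht => by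
    obtain ⟨u, u1, u2, u3⟩ := hW t (by omega)
    have h3 := (le_div_iff₀ (by positivity)).1
      (hs _ (free u3 hL.le) (pow_dvd_pow 2 (by omega)))
    have h4 : (2 : ℝ) ^ (t - u) ≤ 2 ^ W := pow_le_pow_right₀ one_le_two (by omega)
    rw [show t = (t - u) + u by omega, pow_add, mul_smul]
    refine (norm_zsmul_le _ _).trans ?_
    rw [norm_pow, show ‖(2 : ℤ)‖ = 2 by simp [Int.norm_eq_abs]]
    nlinarith [norm_nonneg ((2 ^ u : ℤ) • χ)]
  refine ⟨N + s + W, norm_le_zero_iff.1 (ge_of_tendsto' (by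
    simpa using (tendsto_pow_atTop_nhds_zero_of_lt_one (r := (1 / 2 : ℝ)) (by norm_num)
      (by norm_num)).const_mul (1 / 4)) fun k => ?_)⟩
  simpa using dbls _ k fun j _ => by
    rw [smul_smul, ← pow_add]
    exact h2 _ (by omega)

lemma isD : IsD fun n => 2 ^ n :=
  ⟨rfl, fun n => ⟨by positivity, pow_dvd_pow 2 n.le_succ, (Nat.pow_lt_pow_succ one_lt_two).ne⟩⟩

lemma good : ∀ V ∈ @nhds ℤ (supTop fun n => 2 ^ n) 0, ∃ A μ, P A ∧ 0 < μ ∧ U A μ ⊆ V := by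
  let F : Filter ℤ :=
    { sets := {V | ∃ A μ, P A ∧ 0 < μ ∧ U A μ ⊆ V}
      univ_sets := ⟨∅, 1, fun L => ⟨L, L, fun t ht => ⟨t - L, by omega, by omega, by simp⟩⟩,
        one_pos, subset_univ _⟩
      sets_of_superset := fun ⟨A, μ, h1, h2, h3⟩ h => ⟨A, μ, h1, h2, h3.trans h⟩
      inter_sets := fun ⟨A, μ, h1, h2, h3⟩ ⟨B, ν, h4, h5, h6⟩ => ⟨A ∪ B, min μ ν, P_union h1 h4,
        lt_min h2 h5, fun _ hy => ⟨h3 fun a ha => (hy a (Or.inl ha)).trans (min_le_left _ _),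
          h6 fun a ha => (hy a (Or.inr ha)).trans (min_le_right _ _)⟩⟩ }
  suffices F ≤ @nhds ℤ (supTop fun n => 2 ^ n) 0 from this
  rw [supTop, _root_.nhds_sInf]
  refine le_iInf₂ ?_
  rintro _ ⟨c, c1, c2, rfl⟩ V hV
  rw [tau_eq, uc_mem] at hV
  obtain ⟨ρ, r1, r2⟩ := hV
  have h1 : ∀ n, ∃ k, c n = 2 ^ k := fun n => by
    obtain ⟨m, hm⟩ := lam_dvd isD c2 n
    exact ((Nat.dvd_prime_pow Nat.prime_two).1 hm).imp fun _ h => h.2
  choose a ha using h1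
  refine ⟨range a, ρ, P_range (monotone_nat_of_le_succ fun n => ?_) fun L => ?_, r1,
    fun y hy => r2 y fun n => ?_⟩
  · have := (c1.1.2 n).2.1
    rwa [ha, ha, Nat.pow_dvd_pow_iff_le_right one_lt_two] at this
  · obtain ⟨N, hN⟩ := eventually_atTop.1 (c1.2.eventually_ge_atTop (2 ^ L))
    refine ⟨N, fun n hn => ?_⟩
    have := hN n hn
    rw [ha, ha, le_div_iff₀ (by positivity)] at this
    push_cast at this
    rwa [← pow_add, pow_le_pow_iff_right₀ one_lt_two, add_comm] at this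
  · simpa [d, ha] using hy _ ⟨n + 1, rfl⟩

lemma tors {w : UnitAddCircle} (h : (3 : ℤ) • w = 0) (h' : ‖w‖ < 1 / 3) : w = 0 := by
  obtain ⟨r, rfl, hr⟩ := lift w
  rw [smul_coe] at h
  obtain ⟨z, hz⟩ := (AddCircle.coe_eq_zero_iff _).1 h
  rw [← hr, abs_lt] at h'
  simp only [zsmul_eq_mul, mul_one, Int.cast_ofNat] at hz
  have h1 : (z : ℝ) < (1 : ℤ) := by push_cast; linarith
  have h2 : ((-1 : ℤ) : ℝ) < z := by push_cast; linarith
  have h3 : z = 0 := by have := Int.cast_lt.1 h1; have := Int.cast_lt.1 h2; omega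
  have h4 : r = 0 := by rw [h3, Int.cast_zero] at hz; linarith
  simp [h4]

lemma inH {χ : ℤ →+ UnitAddCircle} {t : ℕ} (h : (2 ^ t : ℤ) • χ 1 = 0) :
    InH (fun n => 2 ^ n) χ := by
  obtain ⟨r, hr⟩ := QuotientAddGroup.mk_surjective (χ 1)
  rw [← hr, smul_coe] at h
  obtain ⟨z, hz⟩ := (AddCircle.coe_eq_zero_iff _).1 h
  refine ⟨z, t, hr.symm.trans (congrArg _ ?_)⟩
  simp only [zsmul_eq_mul, mul_one] at hz
  rw [hz]
  push_cast
  field_simp

lemma inH' {χ : ℤ →+ UnitAddCircle} (h : InH (fun n => 2 ^ n) χ) {a : ℕ → ℕ}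
    (ha : ∀ n, n ≤ a n) : ∃ n, ∃ k : ℤ, χ 1 = k • d (a n) := by
  obtain ⟨k, n, h⟩ := h
  refine ⟨n, k * 2 ^ (a n - n), h.trans ?_⟩
  rw [d, smul_coe]
  congr 1
  obtain ⟨m, hm⟩ := Nat.exists_eq_add_of_le (ha n)
  rw [hm, Nat.add_sub_cancel_left]
  push_cast
  field_simp
  ring

lemma pw {u L a : ℕ} (h : u + L ≤ a) : |((2 ^ u : ℤ) : ℝ)| * (1 / 2) ^ a ≤ (1 / 2) ^ L := by
  obtain ⟨m, rfl⟩ := Nat.exists_eq_add_of_le h
  push_cast
  rw [abs_of_pos (by positivity), add_assoc, pow_add, ← mul_assoc, ← mul_pow]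
  simpa using pow_le_pow_of_le_one (a := (1 / 2 : ℝ)) (by norm_num) (by norm_num)
    (Nat.le_add_right L m)

theorem main : (∀ χ : ℤ →+ UnitAddCircle, Continuous[supTop fun n => 2 ^ n, _] χ ↔
      InH (fun n => 2 ^ n) χ) ∧ ∃ h : ℕ ⊕ ℕ → UnitAddCircle,
    (∀ χ : ℤ →+ UnitAddCircle, Continuous[uc h, _] χ ↔ InH (fun n => 2 ^ n) χ) ∧
      ¬ (supTop fun n => 2 ^ n) ≤ uc h := by
  have p1 : P (range fun n : ℕ => 2 * n ^ 2) := P_range (fun a b h => by nlinarith)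
    fun L => ⟨L, fun n hn => by nlinarith⟩
  have p2 : P (range fun n : ℕ => 2 * n ^ 2 + 2 * n) := P_range (fun a b h => by nlinarith)
    fun L => ⟨L, fun n hn => by nlinarith⟩
  have hb : ∀ (τ : TopologicalSpace ℤ) (χ : ℤ →+ UnitAddCircle), Continuous[τ, _] χ →
      {y : ℤ | ‖y • χ 1‖ ≤ 1 / 4} ∈ @nhds ℤ τ 0 := fun τ χ h => by
    simp only [← hs]
    exact (h.tendsto 0).norm.eventually_le_const (by simp)
  obtain ⟨g, hg⟩ : ∃ g : ℕ → UnitAddCircle, ∀ n, g n =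
    (((1 / 2 ^ (2 * n ^ 2) - 1 / 2 ^ (2 * n ^ 2 + 2 * n)) / 3 : ℝ) : UnitAddCircle) := ⟨_, fun _ => rfl⟩
  have g1 : ∀ n, (3 : ℤ) • g n = d (2 * n ^ 2) - d (2 * n ^ 2 + 2 * n) := fun n => by
    rw [hg, smul_coe, d, d, ← AddCircle.coe_sub]
    congr 1
    push_cast
    ring
  have g2 : ∀ n, ∃ k : ℤ, g n = k • d (2 * n ^ 2 + 2 * n) := fun n => by
    obtain ⟨k, hk⟩ := sub_one_dvd_pow_sub_one (4 : ℤ) n
    refine ⟨k, ?_⟩
    have h1 : (4 : ℝ) ^ n - 1 = 3 * k := by exact_mod_cast hk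
    rw [hg, d, smul_coe, show (k : ℝ) = ((2 ^ 2) ^ n - 1) / 3 by norm_num; linarith]
    congr 1
    rw [← pow_mul]
    field_simp
    ring
  have g3 : ∀ n (y : ℤ), ‖y • g n‖ ≤ |(y : ℝ)| * (1 / 2) ^ (2 * n ^ 2) := fun n y => by
    rw [hg, smul_coe]
    refine (nle _).trans ?_
    rw [abs_mul, ← one_div_pow, ← one_div_pow]
    have h1 : (1 / 2 : ℝ) ^ (2 * n ^ 2 + 2 * n) ≤ (1 / 2) ^ (2 * n ^ 2) :=
      pow_le_pow_of_le_one (by norm_num) (by norm_num) (by omega)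
    have h2 : (0 : ℝ) < (1 / 2) ^ (2 * n ^ 2 + 2 * n) := by positivity
    exact mul_le_mul_of_nonneg_left (abs_le.2 ⟨by linarith, by linarith⟩) (abs_nonneg _)
  refine ⟨fun χ => ⟨fun h => ?_, fun h => ?_⟩, Sum.elim g fun n => d (2 * n ^ 2 + 2 * n),
    fun χ => ⟨fun h => ?_, fun h => ?_⟩, fun h => ?_⟩
  · obtain ⟨A, μ, h1, h2, h3⟩ := good _ (hb _ χ h)
    obtain ⟨t, ht⟩ := key h1 h2 h3
    exact inH ht
  · obtain ⟨n, k, hk⟩ := inH' h (a := fun n => (n + 1) ^ 2) fun n => by nlinarith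
    have h1 : IsDinf fun n => 2 ^ (n ^ 2) := by
      refine ⟨⟨rfl, fun n => ⟨by positivity, pow_dvd_pow 2 (Nat.pow_le_pow_left n.le_succ 2),
        (Nat.pow_lt_pow_right one_lt_two (Nat.pow_lt_pow_left n.lt_succ_self two_ne_zero)).ne⟩⟩, tendsto_atTop_mono (fun n => ?_)
          (tendsto_pow_atTop_atTop_of_one_lt one_lt_two)⟩
      rw [le_div_iff₀ (by positivity)]
      push_cast
      rw [← pow_add]
      exact pow_le_pow_right₀ one_le_two (by nlinarith)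
    refine continuous_le_dom (sup_le h1 (le_antisymm
      (lam_le fun n => ⟨n, pow_dvd_pow 2 (by nlinarith)⟩) (lam_le fun n => ⟨_, dvd_rfl⟩))) ?_
    rw [tau_eq]
    exact uc_cont _ n k χ (by simpa [d] using hk)
  · obtain ⟨ρ, r1, r2⟩ := (uc_mem _ _).1 (hb _ χ h)
    obtain ⟨t, ht⟩ := key (χ := (3 : ℤ) • χ 1) (P_union p1 p2) (show 0 < ρ / 3 by positivity)
      fun y hy => by
        rw [smul_smul]
        refine r2 _ ?_
        rintro (n | n)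
        · rw [Sum.elim_inl, mul_smul, g1, smul_sub]
          linarith [norm_sub_le (y • d (2 * n ^ 2)) (y • d (2 * n ^ 2 + 2 * n)), hy _ (Or.inl ⟨n, rfl⟩),
            hy _ (Or.inr ⟨n, rfl⟩)]
        · rw [Sum.elim_inr, mul_comm, mul_smul]
          refine (norm_zsmul_le _ _).trans ?_
          rw [show ‖(3 : ℤ)‖ = 3 by simp [Int.norm_eq_abs]]
          linarith [hy _ (Or.inr ⟨n, rfl⟩)]
    obtain ⟨L, hL⟩ := exists_pow_lt_of_lt_one r1 (show (1 / 2 : ℝ) < 1 by norm_num)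
    obtain ⟨u, u1, u2⟩ : ∃ u, t ≤ u ∧ ∀ n, 2 * n ^ 2 + 2 * n ≤ u ∨ u + L ≤ 2 * n ^ 2 :=
      ⟨2 * (t + L) ^ 2 + 2 * (t + L), by omega, fun n => (le_or_gt n (t + L)).imp
        (fun h => by nlinarith) fun h => by nlinarith⟩
    refine inH (t := u) (tors ?_ (lt_of_le_of_lt (r2 _ ?_) (by norm_num)))
    · obtain ⟨m, rfl⟩ := Nat.exists_eq_add_of_le' u1
      rw [smul_comm, pow_add, mul_smul, ht, smul_zero]
    · rintro (n | n) <;> rcases u2 n with h1 | h1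
      · obtain ⟨k, hk⟩ := g2 n
        rw [Sum.elim_inl, hk, smul_comm, kill h1 dvd_rfl, smul_zero, norm_zero]
        exact r1.le
      · exact ((g3 n _).trans (pw h1)).trans hL.le
      · rw [Sum.elim_inr, kill h1 dvd_rfl, norm_zero]
        exact r1.le
      · exact ((small _ (Nat.le_add_right _ _)).trans (pw h1)).trans hL.le
  · obtain ⟨n, k, hk⟩ := inH' h (a := fun n => 2 * n ^ 2 + 2 * n) fun n => by nlinarith
    exact uc_cont _ (Sum.inr n) k χ hk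
  · obtain ⟨A, μ, h1, h2, h3⟩ := good _ (_root_.nhds_mono h ((uc_mem _ {y | ∀ n,
      ‖y • g n‖ ≤ 1 / 4}).2 ⟨1 / 4, by norm_num, fun y hy n => hy (Sum.inl n)⟩))
    obtain ⟨L, hL⟩ := exists_pow_lt_of_lt_one h2 (show (1 / 2 : ℝ) < 1 by norm_num)
    obtain ⟨W, N, hW⟩ := h1 L
    obtain ⟨n, hn⟩ : ∃ n, W + N + 3 ≤ n := ⟨_, le_rfl⟩
    obtain ⟨u, u1, u2, u3⟩ := hW (2 * n ^ 2 + 2 * n - 3) (by omega)
    have h4 := h3 (free u3 hL.le) n
    have h5 := pw (u := u) (L := 3) (a := 2 * n ^ 2 + 2 * n) (by omega)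
    obtain ⟨m, rfl⟩ := Nat.exists_eq_add_of_le (show 2 * n ^ 2 ≤ u by omega)
    have h6 : (((2 : ℝ) ^ m / 3 : ℝ) : UnitAddCircle) = (2 ^ (2 * n ^ 2 + m) : ℤ) • g n +
        (((2 ^ (2 * n ^ 2 + m) : ℤ) * (1 / 2) ^ (2 * n ^ 2 + 2 * n) / 3 : ℝ) : UnitAddCircle) := by
      rw [hg, smul_coe, ← AddCircle.coe_add, one_div_pow]
      congr 1
      push_cast
      field_simp
      ring
    have h7 := tors (w := (((2 : ℝ) ^ m / 3 : ℝ) : UnitAddCircle)) (by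
      rw [smul_coe]
      refine (AddCircle.coe_eq_zero_iff _).2 ⟨2 ^ m, ?_⟩
      simp only [zsmul_eq_mul]
      push_cast
      ring) (by
      rw [h6]
      refine ((norm_add_le _ _).trans (add_le_add h4 (nle _))).trans_lt ?_
      rw [abs_div, abs_mul, abs_of_pos (show (0 : ℝ) < (1 / 2) ^ _ by positivity),
        abs_of_pos (show (0 : ℝ) < 3 by norm_num)]
      linarith)
    obtain ⟨z, hz⟩ := (AddCircle.coe_eq_zero_iff _).1 h7
    simp only [zsmul_eq_mul, mul_one] at hz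
    have h8 : (2 : ℤ) ^ m = 3 * z := by
      have : (2 : ℝ) ^ m = 3 * z := by linarith
      exact_mod_cast this
    have := Int.prime_three.dvd_of_dvd_pow (Dvd.intro _ h8.symm)
    omega

end Pool.Agent.H.MP_2b4c46_gt
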